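import Mathlib
import Pool.Agent.Helper38.WSatDefs
import Pool.Agent.Helper38.WSat

set_option autoImplicit false

namespace Pool.Agent.Helper84.NF

open Pool.Agent.Helper38.WSat

/-- The general formula `(s+t+j choose 2) - δ j(s+t) - α s - β t`. -/
noncomputable def Form (δ α β : ℝ) (s t j : ℕ) : ℝ :=
  ((s + t + j).choose 2 : ℝ) - δ * (j * (s + t)) - α * s - β * t

lemma Form_eq (δ α β : ℝ) (s t j : ℕ) (h : 1 ≤ s + t) :
    Form δ α β s t j = ((s + t - 1).choose 2 : ℝ) + t * ((j + 1) - δ * j - β)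
      + s * ((j + 1) - δ * j - α) - (j + 1) + j * (j + 1) / 2 := by
  unfold Form
  obtain ⟨N, hN⟩ : ∃ N, s + t = N + 1 := ⟨s + t - 1, by omega⟩
  have h1 : s + t - 1 = N := by omega
  have h2 : s + t + j = N + 1 + j := by omega
  have h3 : (s : ℝ) + t = N + 1 := by exact_mod_cast hN
  rw [h1, h2, Nat.cast_choose_two, Nat.cast_choose_two]
  push_cast
  have h4 : (t : ℝ) = N + 1 - s := by linarith
  rw [h4]
  ring

lemma bounds' (s t j : ℕ) (hs : 1 ≤ s) (hst : s ≤ t) :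
    ((s + t - 1).choose 2 : ℝ) ≤ (wsat (s + t + j) (K s t) : ℝ) ∧
    (wsat (s + t + j) (K s t) : ℝ) ≤ ((s + t - 1).choose 2 : ℝ) + (j + 1) * (s - 1) := by
  have hb := bounds (s := s) (t := t) (j := j) hs hst
  refine ⟨by exact_mod_cast hb.1, ?_⟩
  have h1 : ((s - 1 : ℕ) : ℝ) = (s : ℝ) - 1 := by
    rw [Nat.cast_sub (by omega)]; simp
  rw [← h1]
  exact_mod_cast hb.2

/-- fixed `s = 3` and `j`, the coefficient of `t` does not vanish -/
lemma caseA (C δ α β : ℝ) (j : ℕ) (hj : 2 ≤ j) (hc : ((j : ℝ) + 1) - δ * j - β ≠ 0) :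
    ∃ t : ℕ, 3 ≤ t ∧ j ≤ t - 3 ∧
      C * j < |(wsat (3 + t + j) (K 3 t) : ℝ) - Form δ α β 3 t j| := by
  set c : ℝ := ((j : ℝ) + 1) - δ * j - β with hcdef
  set D : ℝ := 3 * (((j : ℝ) + 1) - δ * j - α) - (j + 1) + j * (j + 1) / 2 with hD
  have hcpos : 0 < |c| := abs_pos.mpr hc
  obtain ⟨A, hA⟩ := exists_nat_gt ((C * j + |D| + 2 * (j + 1)) / |c|)
  refine ⟨A + j + 3, by omega, by omega, ?_⟩
  set t : ℕ := A + j + 3 with ht
  have hb := bounds' 3 t j (by norm_num) (by omega)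
  rw [Form_eq δ α β 3 t j (by omega)]
  have hAt : (A : ℝ) ≤ t := by exact_mod_cast (by omega : A ≤ t)
  have h1 : C * j + |D| + 2 * (j + 1) < |c| * t := by
    rw [div_lt_iff₀ hcpos] at hA
    have : (A : ℝ) * |c| ≤ t * |c| := mul_le_mul_of_nonneg_right hAt hcpos.le
    linarith
  set W : ℝ := (wsat (3 + t + j) (K 3 t) : ℝ) with hW
  set B : ℝ := ((3 + t - 1).choose 2 : ℝ) with hB
  have hx0 : 0 ≤ W - B := by linarith [hb.1]
  have hx1 : W - B ≤ 2 * (j + 1) := by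
    have := hb.2
    push_cast at this
    linarith
  have e1 : W - (B + t * (((j : ℝ) + 1) - δ * j - β) + (3 : ℕ) * (((j : ℝ) + 1) - δ * j - α)
      - (j + 1) + j * (j + 1) / 2) = (W - B) - D - t * c := by
    rw [hD, hcdef]; push_cast; ring
  rw [e1]
  have h2 : |(t : ℝ) * c| = |c| * t := by
    rw [abs_mul, abs_of_nonneg (by positivity : (0 : ℝ) ≤ t)]; ring
  have h3 : |(t : ℝ) * c| ≤ |(W - B) - D - t * c| + |W - B| + |D| := by
    have : (t : ℝ) * c = -((W - B) - D - t * c) + (W - B) - D := by ring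
    calc |(t : ℝ) * c| = |-((W - B) - D - t * c) + (W - B) - D| := by rw [← this]
      _ ≤ |-((W - B) - D - t * c) + (W - B)| + |D| := abs_sub _ _
      _ ≤ |-((W - B) - D - t * c)| + |W - B| + |D| := by
          gcongr
          exact abs_add_le _ _
      _ = _ := by rw [abs_neg]
  have h4 : |W - B| ≤ 2 * (j + 1) := by rw [abs_of_nonneg hx0]; exact hx1
  linarith

/-- `δ = β = 1`: take `s = 3`, `t = j + 3` and `j` large -/
lemma caseB (C α : ℝ) :
    ∃ j : ℕ, 2 ≤ j ∧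
      C * j < |(wsat (3 + (j + 3) + j) (K 3 (j + 3)) : ℝ) - Form 1 α 1 3 (j + 3) j| := by
  obtain ⟨A, hA⟩ := exists_nat_gt (2 * (|C| + 3 * |1 - α| + 6))
  refine ⟨A + 2, by omega, ?_⟩
  set j : ℕ := A + 2 with hj
  have hb := bounds' 3 (j + 3) j (by norm_num) (by omega)
  rw [Form_eq 1 α 1 3 (j + 3) j (by omega)]
  have hAj : (A : ℝ) ≤ j := by exact_mod_cast (by omega : A ≤ j)
  have hj2 : (2 : ℝ) ≤ j := by exact_mod_cast (by omega : 2 ≤ j)
  set W : ℝ := (wsat (3 + (j + 3) + j) (K 3 (j + 3)) : ℝ) with hW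
  set B : ℝ := ((3 + (j + 3) - 1).choose 2 : ℝ) with hB
  have hx1 : W - B ≤ 2 * (j + 1) := by
    have := hb.2
    push_cast at this
    linarith
  have ha : -|1 - α| ≤ 1 - α := neg_abs_le _
  have hC : C ≤ |C| := le_abs_self C
  have hlow : C * j < (j : ℝ) * (j + 1) / 2 - (j + 1) + 3 * (1 - α) - (W - B) := by
    have h5 : |C| * j + 3 * |1 - α| + 3 * (j + 1) < (j : ℝ) * (j + 1) / 2 := by
      have h6 : 2 * (|C| + 3 * |1 - α| + 6) < j := lt_of_lt_of_le hA hAj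
      have h7 : 0 ≤ |1 - α| := abs_nonneg _
      have h8 : 0 ≤ |C| := abs_nonneg _
      nlinarith
    have h9 : C * j ≤ |C| * j := mul_le_mul_of_nonneg_right hC (by linarith)
    linarith
  refine lt_of_lt_of_le hlow ?_
  rw [abs_sub_comm]
  refine le_trans (le_of_eq ?_) (le_abs_self _)
  push_cast
  ring

theorem main (C δ α β : ℝ) :
    ∃ s t j : ℕ, 2 < s ∧ s ≤ t ∧ 2 ≤ j ∧ j ≤ t - 3 ∧
      C * j < |(wsat (s + t + j) (K s t) : ℝ) -
        (((s + t + j).choose 2 : ℝ) - δ * (j * (s + t)) - α * s - β * t)| := by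
  by_cases h2 : ((2 : ℕ) : ℝ) + 1 - δ * ((2 : ℕ) : ℝ) - β = 0
  · by_cases h3 : ((3 : ℕ) : ℝ) + 1 - δ * ((3 : ℕ) : ℝ) - β = 0
    · have hδ : δ = 1 := by push_cast at h2 h3; linarith
      have hβ : β = 1 := by push_cast at h2 h3; linarith
      subst hδ hβ
      obtain ⟨j, hj, h⟩ := caseB C α
      exact ⟨3, j + 3, j, by norm_num, by omega, hj, by omega, h⟩
    · obtain ⟨t, ht, htj, h⟩ := caseA C δ α β 3 (by norm_num) h3
      exact ⟨3, t, 3, by norm_num, ht, by norm_num, htj, h⟩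
  · obtain ⟨t, ht, htj, h⟩ := caseA C δ α β 2 (by norm_num) h2
    exact ⟨3, t, 2, by norm_num, ht, by norm_num, htj, h⟩

end Pool.Agent.Helper84.NF
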